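import Pool.Agent.Helper14.BSC.Stmts2

set_option autoImplicit false

namespace Pool.Agent.Helper14.BSC

open Polynomial

/-! ## rational numbers and their valuations -/

theorem lzq_unit (z : ℚ) (hz : z ≠ 0) (h : ∀ (p : ℕ) [Fact p.Prime], padicValRat p z = 0) :
    z = 1 ∨ z = -1 := by
  have hnum : z.num ≠ 0 := Rat.num_ne_zero.mpr hz
  have key : ∀ p : ℕ, p.Prime → ¬ p ∣ z.num.natAbs ∧ ¬ p ∣ z.den := by
    intro p hp
    have : Fact p.Prime := ⟨hp⟩
    have h1 := h p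
    rw [padicValRat_def] at h1
    constructor
    · intro hd
      have h2 : ¬ p ∣ z.den := by
        intro hd2
        have := Nat.dvd_gcd hd hd2
        rw [z.reduced.gcd_eq_one] at this
        exact hp.one_lt.ne' (Nat.dvd_one.mp this)
      have h3 : padicValNat p z.den = 0 := padicValNat.eq_zero_of_not_dvd h2
      have h4 : 1 ≤ padicValNat p z.num.natAbs :=
        one_le_padicValNat_of_dvd (Int.natAbs_ne_zero.mpr hnum) hd
      rw [h3] at h1
      have h5 : padicValInt p z.num = padicValNat p z.num.natAbs := rfl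
      rw [h5] at h1
      omega
    · intro hd
      have h2 : ¬ p ∣ z.num.natAbs := by
        intro hd2
        have := Nat.dvd_gcd hd2 hd
        rw [z.reduced.gcd_eq_one] at this
        exact hp.one_lt.ne' (Nat.dvd_one.mp this)
      have h3 : padicValNat p z.num.natAbs = 0 := padicValNat.eq_zero_of_not_dvd h2
      have h4 : 1 ≤ padicValNat p z.den := one_le_padicValNat_of_dvd z.den_nz hd
      have h5 : padicValInt p z.num = padicValNat p z.num.natAbs := rfl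
      rw [h5, h3] at h1
      omega
  have hn : z.num.natAbs = 1 := by
    by_contra hne
    obtain ⟨p, hp, hd⟩ := Nat.exists_prime_and_dvd hne
    exact (key p hp).1 hd
  have hd : z.den = 1 := by
    by_contra hne
    obtain ⟨p, hp, hd⟩ := Nat.exists_prime_and_dvd hne
    exact (key p hp).2 hd
  have hz2 : z = (z.num : ℚ) := by
    conv_lhs => rw [← Rat.num_div_den z, hd]
    simp
  rcases Int.natAbs_eq z.num with h1 | h1
  · left; rw [hz2, h1, hn]; simp
  · right; rw [hz2, h1, hn]; simp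

theorem lzq_val_prod (S : Finset ℕ) (hS : ∀ p ∈ S, p.Prime) (s : ℕ → ℤ) (q : ℕ) [hq : Fact q.Prime] :
    (∏ p ∈ S, (p : ℚ) ^ s p) ≠ 0 ∧
    padicValRat q (∏ p ∈ S, (p : ℚ) ^ s p) = if q ∈ S then s q else 0 := by
  classical
  induction S using Finset.induction_on with
  | empty => simp
  | insert a S ha ih =>
    have ih' := ih (fun p hp => hS p (Finset.mem_insert_of_mem hp))
    have hap : a.Prime := hS a (Finset.mem_insert_self _ _)
    have ha0 : (a : ℚ) ≠ 0 := by exact_mod_cast hap.ne_zero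
    rw [Finset.prod_insert ha]
    refine ⟨mul_ne_zero (zpow_ne_zero _ ha0) ih'.1, ?_⟩
    rw [padicValRat.mul (zpow_ne_zero _ ha0) ih'.1, ih'.2, padicValRat.zpow]
    by_cases hqa : q = a
    · subst hqa
      rw [padicValRat.self hap.one_lt, if_neg ha, if_pos (Finset.mem_insert_self _ _)]
      ring
    · haveI : Fact a.Prime := ⟨hap⟩
      have h1 : padicValRat q (a : ℚ) = 0 := by
        rw [padicValRat.of_nat, padicValNat_primes hqa]; rfl
      rw [h1]
      by_cases hqS : q ∈ S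
      · rw [if_pos hqS, if_pos (Finset.mem_insert_of_mem hqS)]; ring
      · rw [if_neg hqS, if_neg (by simp [hqa, hqS])]; ring

/-- almost all valuations of a rational number vanish -/
theorem lzq_fin (z : ℚ) (hz : z ≠ 0) : ∃ S : Finset ℕ, (∀ p ∈ S, p.Prime) ∧
    ∀ (p : ℕ) [Fact p.Prime], p ∉ S → padicValRat p z = 0 := by
  refine ⟨z.num.natAbs.primeFactors ∪ z.den.primeFactors, ?_, ?_⟩
  · intro p hp
    rcases Finset.mem_union.mp hp with h | h
    · exact Nat.prime_of_mem_primeFactors h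
    · exact Nat.prime_of_mem_primeFactors h
  · intro p hp hn
    have hnum : z.num.natAbs ≠ 0 := Int.natAbs_ne_zero.mpr (Rat.num_ne_zero.mpr hz)
    rw [Finset.mem_union, not_or, Nat.mem_primeFactors, Nat.mem_primeFactors] at hn
    have h1 : ¬ p ∣ z.num.natAbs := fun h => hn.1 ⟨hp.out, h, hnum⟩
    have h2 : ¬ p ∣ z.den := fun h => hn.2 ⟨hp.out, h, z.den_nz⟩
    have h5 : padicValInt p z.num = padicValNat p z.num.natAbs := rfl
    rw [padicValRat_def, h5, padicValNat.eq_zero_of_not_dvd h1, padicValNat.eq_zero_of_not_dvd h2]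
    rfl

theorem lzq_pow (x : ℚ) (hx : x ≠ 0) (N : ℕ)
    (h : ∀ (p : ℕ) [Fact p.Prime], ∃ s : ℤ, padicValRat p x = N * s) :
    ∃ t : ℚ, t ≠ 0 ∧ (x = t ^ N ∨ x = - t ^ N) := by
  classical
  obtain ⟨S, hS, hS0⟩ := lzq_fin x hx
  have hch : ∀ p : ℕ, ∃ s : ℤ, p.Prime → padicValRat p x = N * s := by
    intro p
    by_cases hp : p.Prime
    · haveI : Fact p.Prime := ⟨hp⟩
      obtain ⟨s, hs⟩ := h p
      exact ⟨s, fun _ => hs⟩
    · exact ⟨0, fun h => absurd h hp⟩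
  choose s hs using hch
  set t : ℚ := ∏ p ∈ S, (p : ℚ) ^ s p with ht
  have ht0 : t ≠ 0 := by
    have : Fact (Nat.Prime 2) := ⟨Nat.prime_two⟩
    exact (lzq_val_prod S hS s 2).1
  refine ⟨t, ht0, ?_⟩
  have h1 := lzq_unit (x / t ^ N) (div_ne_zero hx (pow_ne_zero _ ht0)) (by
    intro p hp
    rw [padicValRat.div hx (pow_ne_zero _ ht0), padicValRat.pow, (lzq_val_prod S hS s p).2]
    by_cases hpS : p ∈ S
    · rw [if_pos hpS, hs p hp.out]; ring
    · rw [if_neg hpS, hS0 p hpS]; ring)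
  rcases h1 with h1 | h1
  · left; rw [div_eq_iff (pow_ne_zero _ ht0)] at h1; rw [h1, one_mul]
  · right; rw [div_eq_iff (pow_ne_zero _ ht0)] at h1; rw [h1]; ring


/-! ## norms in `ℂ_p` -/

theorem lzq_norm_coe (p : ℕ) [Fact p.Prime] (x : ℚ_[p]) :
    ‖algebraMap ℚ_[p] ℂ_[p] x‖ = ‖x‖ := norm_algebraMap' _ _

theorem lzq_norm_rat (p : ℕ) [Fact p.Prime] (q : ℚ) (hq : q ≠ 0) :
    ‖algebraMap ℚ ℂ_[p] q‖ = (p : ℝ) ^ (-padicValRat p q) := by
  have h1 : algebraMap ℚ ℂ_[p] q = algebraMap ℚ_[p] ℂ_[p] (q : ℚ_[p]) := by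
    rw [eq_ratCast, map_ratCast]
  rw [h1, lzq_norm_coe, Padic.eq_padicNorm, padicNorm.eq_zpow_of_nonzero hq]
  push_cast
  rfl

theorem lzq_small {L : Type} [NormedField L] [IsUltrametricDist L] (P : L[X]) (z : L)
    (hz : ‖z‖ < 1) (h : ∀ i, ‖P.coeff i‖ ≤ 1) (h0 : ‖P.coeff 0‖ = 1) : P.eval z ≠ 0 := by
  intro hE
  have h1 : P.eval z = P.divX.eval z * z + P.coeff 0 := by
    conv_lhs => rw [← Polynomial.divX_mul_X_add P]
    simp
  have h2 : ‖P.divX.eval z‖ ≤ 1 := by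
    rw [Polynomial.eval_eq_sum, Polynomial.sum]
    apply IsUltrametricDist.norm_sum_le_of_forall_le_of_nonneg zero_le_one
    intro i _
    rw [norm_mul, norm_pow, Polynomial.coeff_divX]
    exact mul_le_one₀ (h _) (by positivity) (pow_le_one₀ (norm_nonneg _) hz.le)
  have h3 : ‖P.divX.eval z * z‖ < 1 := by
    rw [norm_mul]
    calc ‖P.divX.eval z‖ * ‖z‖ ≤ 1 * ‖z‖ := by gcongr
      _ < 1 := by rw [one_mul]; exact hz
  have h4 : P.divX.eval z * z = - P.coeff 0 := by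
    rw [h1] at hE
    exact eq_neg_of_add_eq_zero_left hE
  rw [h4, norm_neg, h0] at h3
  exact lt_irrefl _ h3

theorem lzq_norm_one {L : Type} [NormedField L] [IsUltrametricDist L] (P : L[X]) (z : L)
    (hz0 : z ≠ 0) (h : ∀ i, P.coeff i ≠ 0 → ‖P.coeff i‖ = 1) (h0 : P.coeff 0 ≠ 0)
    (hE : P.eval z = 0) : ‖z‖ = 1 := by
  have hle : ∀ i, ‖P.coeff i‖ ≤ 1 := by
    intro i
    by_cases hi : P.coeff i = 0
    · rw [hi, norm_zero]; exact zero_le_one
    · exact (h i hi).le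
  have hP0 : P ≠ 0 := by
    rintro rfl
    exact h0 rfl
  rcases lt_trichotomy ‖z‖ 1 with hlt | heq | hgt
  · exact absurd hE (lzq_small P z hlt hle (h 0 h0))
  · exact heq
  · exfalso
    have hinv : ‖z⁻¹‖ < 1 := by
      rw [norm_inv]; exact inv_lt_one_of_one_lt₀ hgt
    letI : Invertible z := invertibleOfNonzero hz0
    have h1 := (Polynomial.eval₂_reverse_eq_zero_iff (RingHom.id L) z P).mpr (by
      rw [Polynomial.eval₂_id]; exact hE)
    rw [Polynomial.eval₂_id, invOf_eq_inv] at h1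
    refine lzq_small P.reverse z⁻¹ hinv ?_ ?_ h1
    · intro i
      rw [Polynomial.coeff_reverse]
      exact hle _
    · rw [Polynomial.coeff_zero_reverse]
      exact h _ (Polynomial.leadingCoeff_ne_zero.mpr hP0)

/-! ## the local valuation -/

theorem lzq_local (b : ℕ → ℚ) (U : ℚ[X]) (hb : Cls b) (hU : U.eval 0 ≠ 0) (hL : LocC b U)
    (p : ℕ) [hp : Fact p.Prime] : ∃ m : ℤ,
      (∀ N : ℕ, 0 < N → ∃ s : ℤ, padicValRat p (b N) = m + N * s) ∧
      ((∀ i, U.coeff i ≠ 0 → padicValRat p (U.coeff i) = 0) → m = 0) := by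
  obtain ⟨d, hd, hL⟩ := hL p
  obtain ⟨Φ, hΦ0, hUΦ, E', hE', hN⟩ := hL (algebraMap ℚ ℂ_[p]) ⊥ inferInstance (by
    intro a
    rw [IntermediateField.mem_bot]
    exact ⟨(a : ℚ_[p]), by rw [map_ratCast, eq_ratCast]⟩)
  have hp0 : (0 : ℝ) < p := by exact_mod_cast hp.out.pos
  have hp1 : (p : ℝ) ≠ 1 := by exact_mod_cast hp.out.ne_one
  have key : ∀ N' : ℕ, 0 < N' → ∃ v : ℤ,
      (p : ℝ) ^ (-padicValRat p (b (N' * d))) = ‖Φ‖ * (p : ℝ) ^ (N' * v) := by
    intro N' hN'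
    have hpos : 0 < N' * d := Nat.mul_pos hN' hd
    obtain ⟨y, hy, w, hw, hjb, hyΦ, w1, hw1, hww1⟩ := hN (N' * d) hpos ‖Φ‖ (norm_pos_iff.mpr hΦ0)
    have hb0 : b (N' * d) ≠ 0 := hb.1 _ hpos
    have hjb0 : algebraMap ℚ ℂ_[p] (b (N' * d)) ≠ 0 := by
      rw [Ne, map_eq_zero]; exact hb0
    have hw0 : w ≠ 0 := by
      rintro rfl
      rw [hjb, zero_pow hpos.ne', mul_zero] at hjb0
      exact hjb0 rfl
    have hw10 : w1 ≠ 0 := by
      rintro rfl
      rw [norm_zero] at hww1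
      exact hw0 (norm_eq_zero.mp (pow_eq_zero_iff hd.ne' |>.mp hww1))
    have hyn : ‖y‖ = ‖Φ‖ := by
      have h1 : y = (y - Φ) + Φ := by ring
      rw [h1, IsUltrametricDist.norm_add_eq_max_of_norm_ne_norm hyΦ.ne]
      exact max_eq_right hyΦ.le
    rw [IntermediateField.mem_bot] at hw1
    obtain ⟨x, rfl⟩ := hw1
    have hx0 : x ≠ 0 := by
      rintro rfl
      exact hw10 (map_zero _)
    rw [lzq_norm_coe, Padic.norm_eq_zpow_neg_valuation hx0] at hww1
    refine ⟨-x.valuation, ?_⟩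
    rw [← lzq_norm_rat p _ hb0, hjb, norm_mul, norm_pow, hyn, mul_comm N' d, pow_mul, hww1,
      ← zpow_natCast, ← zpow_mul]
    congr 2
    ring
  obtain ⟨v1, hv1⟩ := key 1 one_pos
  set m : ℤ := padicValRat p (b (1 * d)) + v1 with hm
  have hΦm : ‖Φ‖ = (p : ℝ) ^ (-m) := by
    have h1 : ‖Φ‖ = (p : ℝ) ^ (-padicValRat p (b (1 * d))) * ((p : ℝ) ^ (((1 : ℕ) : ℤ) * v1))⁻¹ := by
      rw [hv1, mul_assoc, mul_inv_cancel₀ (zpow_ne_zero _ hp0.ne'), mul_one]
    rw [h1, ← zpow_neg, ← zpow_add₀ hp0.ne', hm]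
    congr 1
    push_cast
    ring
  refine ⟨m, ?_, ?_⟩
  · intro N hN0
    obtain ⟨v, hv⟩ := key N hN0
    rw [hΦm, ← zpow_add₀ hp0.ne'] at hv
    have h1 := zpow_right_injective₀ hp0 hp1 hv
    obtain ⟨t, ht⟩ := hb.2 N d hN0 hd
    have hb0 : b (N * d) ≠ 0 := hb.1 _ (Nat.mul_pos hN0 hd)
    have ht0 : t ≠ 0 := by
      rintro rfl
      rw [ht, zero_pow hN0.ne', mul_zero] at hb0
      exact hb0 rfl
    have h2 : padicValRat p (b (N * d)) = padicValRat p (b N) + N * padicValRat p t := by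
      rw [ht, padicValRat.mul (hb.1 N hN0) (pow_ne_zero _ ht0), padicValRat.pow]
    refine ⟨-v - padicValRat p t, ?_⟩
    linear_combination (-1 : ℤ) * h2 - h1
  · intro hunit
    have h1 : ‖Φ‖ = 1 := by
      apply lzq_norm_one (U.map (algebraMap ℚ ℂ_[p])) Φ hΦ0 _ _ hUΦ
      · intro i hi
        rw [Polynomial.coeff_map] at hi ⊢
        have hi' : U.coeff i ≠ 0 := by
          intro h0; rw [h0, map_zero] at hi; exact hi rfl
        rw [lzq_norm_rat p _ hi', hunit i hi', neg_zero, zpow_zero]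
      · rw [Polynomial.coeff_map, Ne, map_eq_zero, Polynomial.coeff_zero_eq_eval_zero]
        exact hU
    rw [hΦm] at h1
    have h2 : (p : ℝ) ^ (-m) = (p : ℝ) ^ (0 : ℤ) := by rw [h1, zpow_zero]
    have h3 := zpow_right_injective₀ hp0 hp1 h2
    simpa using h3

/-! ## the theorem -/

theorem st_LZQ : ST_LZQ := by
  classical
  intro b U hb hU hL
  have hch : ∀ p : ℕ, ∃ m : ℤ, ∀ hp : p.Prime,
      (∀ N : ℕ, 0 < N → ∃ s : ℤ, @padicValRat p (b N) = m + N * s) ∧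
      ((∀ i, U.coeff i ≠ 0 → padicValRat p (U.coeff i) = 0) → m = 0) := by
    intro p
    by_cases hp : p.Prime
    · have : Fact p.Prime := ⟨hp⟩
      obtain ⟨m, hm⟩ := lzq_local b U hb hU hL p
      exact ⟨m, fun _ => hm⟩
    · exact ⟨0, fun h => absurd h hp⟩
  choose m hm using hch
  have hSi : ∀ i : ℕ, ∃ S : Finset ℕ, (∀ p ∈ S, p.Prime) ∧
      ∀ (p : ℕ) [Fact p.Prime], p ∉ S → U.coeff i ≠ 0 → padicValRat p (U.coeff i) = 0 := by
    intro i
    by_cases hi : U.coeff i = 0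
    · exact ⟨∅, by simp, fun p _ _ h => absurd hi h⟩
    · obtain ⟨S, hS, hS0⟩ := lzq_fin _ hi
      exact ⟨S, hS, fun p _ hpS _ => hS0 p hpS⟩
  choose S hS hS0 using hSi
  set B : Finset ℕ := U.support.biUnion S with hB
  have hBp : ∀ p ∈ B, p.Prime := by
    intro p hp
    obtain ⟨i, -, hi⟩ := Finset.mem_biUnion.mp hp
    exact hS i p hi
  have hmB : ∀ p : ℕ, p.Prime → p ∉ B → m p = 0 := by
    intro p hp hpB
    have : Fact p.Prime := ⟨hp⟩
    apply (hm p hp).2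
    intro i hi
    apply hS0 i p _ hi
    intro hpS
    exact hpB (Finset.mem_biUnion.mpr ⟨i, Polynomial.mem_support_iff.mpr hi, hpS⟩)
  set r0 : ℚ := ∏ p ∈ B, (p : ℚ) ^ m p with hr0
  have hr00 : r0 ≠ 0 := by
    have : Fact (Nat.Prime 2) := ⟨Nat.prime_two⟩
    exact (lzq_val_prod B hBp m 2).1
  have hpm : ∀ N : ℕ, 0 < N → ∃ t : ℚ, t ≠ 0 ∧ (b N = r0 * t ^ N ∨ b N = -r0 * t ^ N) := by
    intro N hN
    obtain ⟨t, ht0, ht⟩ := lzq_pow (b N / r0) (div_ne_zero (hb.1 N hN) hr00) N (by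
      intro p hp
      obtain ⟨s, hs⟩ := (hm p hp.out).1 N hN
      refine ⟨s, ?_⟩
      rw [padicValRat.div (hb.1 N hN) hr00, hs, (lzq_val_prod B hBp m p).2]
      by_cases hpB : p ∈ B
      · rw [if_pos hpB]; ring
      · rw [if_neg hpB, hmB p hp.out hpB]; ring)
    refine ⟨t, ht0, ?_⟩
    rcases ht with h | h
    · left; rw [div_eq_iff hr00] at h; rw [h]; ring
    · right; rw [div_eq_iff hr00] at h; rw [h]; ring
  by_cases hall : ∀ N : ℕ, 0 < N → ∃ t : ℚ, b N = r0 * t ^ N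
  · exact ⟨r0, hr00, hall⟩
  · push Not at hall
    obtain ⟨N0, hN0, hne⟩ := hall
    refine ⟨-r0, neg_ne_zero.mpr hr00, ?_⟩
    intro N hN
    have hpos : 0 < N * N0 := Nat.mul_pos hN hN0
    obtain ⟨t, ht0, ht⟩ := hpm (N * N0) hpos
    obtain ⟨s, hs⟩ := hb.2 N N0 hN hN0
    obtain ⟨s', hs'⟩ := hb.2 N0 N hN0 hN
    have hs0 : s ≠ 0 := by
      rintro rfl
      rw [zero_pow hN.ne', mul_zero] at hs
      exact hb.1 _ hpos hs
    have hs0' : s' ≠ 0 := by
      rintro rfl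
      rw [zero_pow hN0.ne', mul_zero, mul_comm N0 N] at hs'
      exact hb.1 _ hpos hs'
    rcases ht with ht | ht
    · exfalso
      apply hne (t ^ N / s')
      rw [mul_comm N0 N, ht] at hs'
      rw [div_pow, ← pow_mul, ← mul_div_assoc, eq_div_iff (pow_ne_zero _ hs0'), ← hs']
    · refine ⟨t ^ N0 / s, ?_⟩
      rw [ht] at hs
      rw [div_pow, ← pow_mul, ← mul_div_assoc, eq_div_iff (pow_ne_zero _ hs0), ← hs, mul_comm N0 N]

end Pool.Agent.Helper14.BSC
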